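import Mathlib
import Pool.Agent.W329.AR.Words

/-!
# Sums of matrix products of varying formats

`Fam T P Q S`: the tensor `T` is a sum of tensors `F i`, `i : ι`, where `F i` is a trace of a product
of three matrices of formats `P i × Q i`, `Q i × S i`, `S i × P i`.
-/

set_option autoImplicit false
set_option linter.unusedSectionVars false

open Finset

namespace Pool.Agent.TH671.SG

open Pool.Agent.W329.AR

variable {K : Type*} [CommRing K]
variable {α β γ α' β' γ' : Type*}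

/-- `T` is a sum over `i` of traces of products of matrices of formats `P i × Q i`, `Q i × S i`,
`S i × P i`. -/
def Fam (T : α → β → γ → K) {ι : Type} [Fintype ι] (P Q S : ι → ℕ) : Prop :=
  ∃ F : ι → α → β → γ → K, (∀ i, D (F i) 1 (P i) (Q i) (S i)) ∧
    ∀ a b c, T a b c = ∑ i, F i a b c

theorem Fam.congr {T T' : α → β → γ → K} {ι : Type} [Fintype ι] {P Q S : ι → ℕ}
    (h : Fam T P Q S) (hT : ∀ a b c, T' a b c = T a b c) : Fam T' P Q S := by
  have : T' = T := by funext a b c; exact hT a b c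
  rwa [this]

theorem Fam.rot {T : α → β → γ → K} {ι : Type} [Fintype ι] {P Q S : ι → ℕ}
    (h : Fam T P Q S) : Fam (fun b c a => T a b c) Q S P := by
  obtain ⟨F, h1, h2⟩ := h
  exact ⟨fun i b c a => F i a b c, fun i => (h1 i).rot, fun b c a => h2 a b c⟩

theorem Fam.mul {T : α → β → γ → K} {T' : α' → β' → γ' → K} {ι κ : Type} [Fintype ι] [Fintype κ]
    {P Q S : ι → ℕ} {P' Q' S' : κ → ℕ} (h : Fam T P Q S) (h' : Fam T' P' Q' S') :
    Fam (fun (a : α × α') (b : β × β') (c : γ × γ') => T a.1 b.1 c.1 * T' a.2 b.2 c.2)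
      (ι := ι × κ) (fun l => P l.1 * P' l.2) (fun l => Q l.1 * Q' l.2)
      (fun l => S l.1 * S' l.2) := by
  obtain ⟨F, h1, h2⟩ := h
  obtain ⟨F', h1', h2'⟩ := h'
  refine ⟨fun l a b c => F l.1 a.1 b.1 c.1 * F' l.2 a.2 b.2 c.2, fun l => ?_, fun a b c => ?_⟩
  · simpa using (h1 l.1).mul (h1' l.2)
  · beta_reduce
    rw [h2, h2', Finset.sum_mul_sum, Fintype.sum_prod_type]

theorem Fam.pi {n : ℕ} {ι : Type} [Fintype ι] (T : Fin n → α → β → γ → K)
    (P Q S : Fin n → ι → ℕ) (h : ∀ t, Fam (T t) (P t) (Q t) (S t)) :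
    Fam (fun (a : Fin n → α) (b : Fin n → β) (c : Fin n → γ) => ∏ t, T t (a t) (b t) (c t))
      (ι := Fin n → ι) (fun l => ∏ t, P t (l t)) (fun l => ∏ t, Q t (l t))
      (fun l => ∏ t, S t (l t)) := by
  classical
  choose F h1 h2 using h
  refine ⟨fun l a b c => ∏ t, F t (l t) (a t) (b t) (c t), fun l => ?_, fun a b c => ?_⟩
  · simpa using D.pi (fun t => F t (l t)) (fun _ => 1) (fun t => P t (l t)) (fun t => Q t (l t))
      (fun t => S t (l t)) (fun t => h1 t (l t))
  · beta_reduce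
    rw [Finset.prod_congr rfl fun t _ => h2 t (a t) (b t) (c t), Finset.prod_univ_sum,
      Fintype.piFinset_univ]

/-! ### ranks -/

theorem MR_one : MR K 1 1 1 1 := by
  refine ⟨fun _ _ => 1, fun _ _ => 1, fun _ _ => 1, fun x y z => ?_⟩
  have h1 : x.1 = z.2 := Subsingleton.elim _ _
  have h2 : x.2 = y.1 := Subsingleton.elim _ _
  have h3 : y.2 = z.1 := Subsingleton.elim _ _
  simp [MMT, h1, h2, h3]

theorem MR_triv (p q s : ℕ) : MR K p q s (p * q * s) := by
  have := (MR_one (K := K)).block (a := p) (b := q) (c := s) (p' := p) (q' := q) (s' := s)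
    (by simp) (by simp) (by simp)
  simpa using this

theorem Fam.toRk {T : α → β → γ → K} {ι : Type} [Fintype ι] {P Q S : ι → ℕ}
    (h : Fam T P Q S) (r : ι → ℕ) (hr : ∀ i, MR K (P i) (Q i) (S i) (r i)) :
    Rk T (∑ i, r i) := by
  obtain ⟨F, h1, h2⟩ := h
  have := Rk.sum univ F r (fun i _ => by simpa using (h1 i).toRk (hr i))
  exact this.congr h2

theorem MR_rect (M p q s : ℕ) : ∃ r, MR K p q s r ∧
    r ≤ QQ M * (p * q * (s / 4 ^ M) + p * q) + 10 ^ (5 * M) * (p * s + q * s) := by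
  by_cases hp : 10 ^ (5 * M) ≤ p
  · by_cases hq : 10 ^ (5 * M) ≤ q
    · have h0 := rect (K := K) M p q hp hq
      have hpos : 0 < 4 ^ M := by positivity
      have hs : s ≤ (s / 4 ^ M + 1) * 4 ^ M := by
        have := Nat.lt_div_mul_add (a := s) hpos
        nlinarith
      have h1 := h0.block (p' := p) (q' := q) (s' := s) (a := 1) (b := 1) (c := s / 4 ^ M + 1)
        (by simp) (by simp) hs
      refine ⟨_, h1, ?_⟩
      calc 1 * 1 * (s / 4 ^ M + 1) * (QQ M * (p * q))
          = QQ M * (p * q * (s / 4 ^ M) + p * q) := by ring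
        _ ≤ _ := Nat.le_add_right _ _
    · refine ⟨_, MR_triv p q s, ?_⟩
      push Not at hq
      calc p * q * s = q * (p * s) := by ring
        _ ≤ 10 ^ (5 * M) * (p * s) := Nat.mul_le_mul_right _ hq.le
        _ ≤ 10 ^ (5 * M) * (p * s + q * s) := Nat.mul_le_mul_left _ (Nat.le_add_right _ _)
        _ ≤ _ := Nat.le_add_left _ _
  · refine ⟨_, MR_triv p q s, ?_⟩
    push Not at hp
    calc p * q * s = p * (q * s) := by ring
      _ ≤ 10 ^ (5 * M) * (q * s) := Nat.mul_le_mul_right _ hp.le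
      _ ≤ 10 ^ (5 * M) * (p * s + q * s) := Nat.mul_le_mul_left _ (Nat.le_add_left _ _)
      _ ≤ _ := Nat.le_add_left _ _

theorem Fam.rk1 {T : α → β → γ → K} {ι : Type} [Fintype ι] {P Q S : ι → ℕ}
    (h : Fam T P Q S) (M B : ℕ) (hB : ∑ i, P i * Q i * S i ≤ 4 ^ M * B) :
    Rk T (QQ M * (B + ∑ i, P i * Q i) +
      10 ^ (5 * M) * (∑ i, P i * S i + ∑ i, Q i * S i)) := by
  have h1 := fun i => MR_rect (K := K) M (P i) (Q i) (S i)
  choose r hr1 hr2 using h1
  refine (h.toRk r hr1).mono ?_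
  have hpos : 0 < 4 ^ M := by positivity
  have h3 : ∑ i, P i * Q i * (S i / 4 ^ M) ≤ B := by
    refine Nat.le_of_mul_le_mul_left (le_trans ?_ hB) hpos
    rw [Finset.mul_sum]
    refine Finset.sum_le_sum fun i _ => ?_
    calc 4 ^ M * (P i * Q i * (S i / 4 ^ M)) = P i * Q i * (4 ^ M * (S i / 4 ^ M)) := by ring
      _ ≤ P i * Q i * S i := Nat.mul_le_mul_left _ (Nat.mul_div_le _ _)
  calc ∑ i, r i ≤ ∑ i, (QQ M * (P i * Q i * (S i / 4 ^ M) + P i * Q i) +
        10 ^ (5 * M) * (P i * S i + Q i * S i)) := Finset.sum_le_sum fun i _ => hr2 i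
    _ = QQ M * (∑ i, P i * Q i * (S i / 4 ^ M) + ∑ i, P i * Q i) +
        10 ^ (5 * M) * (∑ i, P i * S i + ∑ i, Q i * S i) := by
      rw [Finset.sum_add_distrib, ← Finset.mul_sum, ← Finset.mul_sum, Finset.sum_add_distrib,
        Finset.sum_add_distrib]
    _ ≤ _ := by gcongr

theorem MR_cube (M p q s : ℕ) : ∃ r, MR K p q s r ∧
    r * 4 ^ M ≤ 2 * QQ M * (p * q * s) +
      4 ^ M * 10 ^ (5 * M) * (p * q + q * s + p * s) := by
  by_cases hp : 10 ^ (5 * M) ≤ p
  · by_cases hq : 10 ^ (5 * M) ≤ q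
    · by_cases hs : 10 ^ (5 * M) ≤ s
      · have h4 : 4 ^ M ≤ s := by
          refine le_trans ?_ hs
          calc 4 ^ M ≤ 10 ^ M := Nat.pow_le_pow_left (by norm_num) _
            _ ≤ _ := Nat.pow_le_pow_right (by norm_num) (by omega)
        obtain ⟨r, hr, hr2⟩ := cube (K := K) M p q s hp hq h4
        exact ⟨r, hr, hr2.trans (Nat.le_add_right _ _)⟩
      · refine ⟨_, MR_triv p q s, ?_⟩
        push Not at hs
        calc p * q * s * 4 ^ M = 4 ^ M * (s * (p * q)) := by ring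
          _ ≤ 4 ^ M * (10 ^ (5 * M) * (p * q)) := by gcongr
          _ = 4 ^ M * 10 ^ (5 * M) * (p * q) := by ring
          _ ≤ 4 ^ M * 10 ^ (5 * M) * (p * q + q * s + p * s) := by gcongr; omega
          _ ≤ _ := Nat.le_add_left _ _
    · refine ⟨_, MR_triv p q s, ?_⟩
      push Not at hq
      calc p * q * s * 4 ^ M = 4 ^ M * (q * (p * s)) := by ring
        _ ≤ 4 ^ M * (10 ^ (5 * M) * (p * s)) := by gcongr
        _ = 4 ^ M * 10 ^ (5 * M) * (p * s) := by ring
        _ ≤ 4 ^ M * 10 ^ (5 * M) * (p * q + q * s + p * s) := by gcongr; omega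
        _ ≤ _ := Nat.le_add_left _ _
  · refine ⟨_, MR_triv p q s, ?_⟩
    push Not at hp
    calc p * q * s * 4 ^ M = 4 ^ M * (p * (q * s)) := by ring
      _ ≤ 4 ^ M * (10 ^ (5 * M) * (q * s)) := by gcongr
      _ = 4 ^ M * 10 ^ (5 * M) * (q * s) := by ring
      _ ≤ 4 ^ M * 10 ^ (5 * M) * (p * q + q * s + p * s) := by gcongr; omega
      _ ≤ _ := Nat.le_add_left _ _

theorem Fam.rk2 {T : α → β → γ → K} {ι : Type} [Fintype ι] {P Q S : ι → ℕ}
    (h : Fam T P Q S) (M : ℕ) : ∃ ρ, Rk T ρ ∧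
      ρ * 4 ^ M ≤ 2 * QQ M * (∑ i, P i * Q i * S i) +
        4 ^ M * 10 ^ (5 * M) * (∑ i, P i * Q i + ∑ i, Q i * S i + ∑ i, P i * S i) := by
  have h1 := fun i => MR_cube (K := K) M (P i) (Q i) (S i)
  choose r hr1 hr2 using h1
  refine ⟨_, h.toRk r hr1, ?_⟩
  rw [Finset.sum_mul]
  calc ∑ i, r i * 4 ^ M ≤ ∑ i, (2 * QQ M * (P i * Q i * S i) +
        4 ^ M * 10 ^ (5 * M) * (P i * Q i + Q i * S i + P i * S i)) :=
        Finset.sum_le_sum fun i _ => hr2 i
    _ = _ := by
      rw [Finset.sum_add_distrib, ← Finset.mul_sum, ← Finset.mul_sum, Finset.sum_add_distrib,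
        Finset.sum_add_distrib]

/-! ### grouping terms -/

theorem D_p {E : Type} [Fintype E] (u : E → α → K) (v : β → K) (w : E → γ → K) :
    D (fun a b c => ∑ e, u e a * v b * w e c) 1 (Fintype.card E) 1 1 := by
  refine ⟨Unit, E, Unit, Unit, inferInstance, inferInstance, inferInstance, inferInstance,
    fun _ a => Matrix.of fun e _ => u e a, fun _ b => Matrix.of fun _ _ => v b,
    fun _ c => Matrix.of fun _ e => w e c, by simp, rfl, by simp, by simp, fun a b c => ?_⟩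
  simp [Matrix.trace, Matrix.mul_apply]

theorem D_q {E : Type} [Fintype E] (u : E → α → K) (v : E → β → K) (w : γ → K) :
    D (fun a b c => ∑ e, u e a * v e b * w c) 1 1 (Fintype.card E) 1 := by
  refine ⟨Unit, Unit, E, Unit, inferInstance, inferInstance, inferInstance, inferInstance,
    fun _ a => Matrix.of fun _ e => u e a, fun _ b => Matrix.of fun e _ => v e b,
    fun _ c => Matrix.of fun _ _ => w c, by simp, by simp, rfl, by simp, fun a b c => ?_⟩
  simp [Matrix.trace, Matrix.mul_apply, Finset.sum_mul]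

theorem D_s {E : Type} [Fintype E] (u : α → K) (v : E → β → K) (w : E → γ → K) :
    D (fun a b c => ∑ e, u a * v e b * w e c) 1 1 1 (Fintype.card E) := by
  refine ⟨Unit, Unit, Unit, E, inferInstance, inferInstance, inferInstance, inferInstance,
    fun _ a => Matrix.of fun _ _ => u a, fun _ b => Matrix.of fun _ e => v e b,
    fun _ c => Matrix.of fun e _ => w e c, by simp, by simp, by simp, rfl, fun a b c => ?_⟩
  simp [Matrix.trace, Matrix.mul_apply]

theorem sum_fiber {E ς : Type} [Fintype E] [Fintype ς] [DecidableEq ς] (f : E → ς) :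
    ∑ i, Fintype.card {e // f e = i} = Fintype.card E := by
  rw [← Fintype.card_sigma]
  exact Fintype.card_congr (Equiv.sigmaFiberEquiv f)

theorem sum_fiber' {E ς : Type} [Fintype E] [Fintype ς] [DecidableEq ς] (f : E → ς) (g : E → K) :
    ∑ e, g e = ∑ i, ∑ e : {e // f e = i}, g e.1 := by
  rw [← Fintype.sum_sigma' (f := fun i (e : {e // f e = i}) => g e.1)]
  exact (Equiv.sum_comp (Equiv.sigmaFiberEquiv f) g).symm

/-- `FT 0`: formats `(d, 1, 1)`, `FT 1`: `(1, d, 1)`, `FT 2`: `(1, 1, d)`, with sum of the `d` at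
most `W`. -/
def FT (ς : Type) [Fintype ς] (κ : Fin 3) (T : α → β → γ → K) (W : ℕ) : Prop :=
  ∃ d : ς → ℕ, ∑ i, d i ≤ W ∧
    Fam T (fun i => if κ = 0 then d i else 1) (fun i => if κ = 1 then d i else 1)
      (fun i => if κ = 2 then d i else 1)

theorem FT.mono {ς : Type} [Fintype ς] {κ : Fin 3} {T : α → β → γ → K} {W W' : ℕ}
    (h : FT ς κ T W) (hW : W ≤ W') : FT ς κ T W' := by
  obtain ⟨d, h1, h2⟩ := h
  exact ⟨d, h1.trans hW, h2⟩

theorem FT.congr {ς : Type} [Fintype ς] {κ : Fin 3} {T T' : α → β → γ → K} {W : ℕ}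
    (h : FT ς κ T W) (hT : ∀ a b c, T' a b c = T a b c) : FT ς κ T' W := by
  obtain ⟨d, h1, h2⟩ := h
  exact ⟨d, h1, h2.congr hT⟩

theorem FT.rot {ς : Type} [Fintype ς] {κ : Fin 3} {T : α → β → γ → K} {W : ℕ}
    (h : FT ς κ T W) : FT ς (κ + 2) (fun b c a => T a b c) W := by
  obtain ⟨d, h1, h2⟩ := h
  refine ⟨d, h1, ?_⟩
  have := h2.rot
  fin_cases κ <;> simpa using this

theorem FT_p {E ς : Type} [Fintype E] [Fintype ς] [DecidableEq ς] {T : α → β → γ → K}
    (u : E → α → K) (f : E → ς) (v : ς → β → K) (w : E → γ → K)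
    (h : ∀ a b c, T a b c = ∑ e, u e a * v (f e) b * w e c) :
    FT ς 0 T (Fintype.card E) := by
  refine ⟨fun i => Fintype.card {e // f e = i}, (sum_fiber f).le, ?_⟩
  refine ⟨fun i a b c => ∑ e : {e // f e = i}, u e.1 a * v i b * w e.1 c, fun i => ?_,
    fun a b c => ?_⟩
  · simpa using D_p (fun e : {e // f e = i} => u e.1) (v i) (fun e => w e.1)
  · rw [h, sum_fiber' f]
    exact Finset.sum_congr rfl fun i _ => Finset.sum_congr rfl fun e _ => by rw [e.2]

theorem FT_q {E ς : Type} [Fintype E] [Fintype ς] [DecidableEq ς] {T : α → β → γ → K}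
    (u : E → α → K) (f : E → ς) (v : E → β → K) (w : ς → γ → K)
    (h : ∀ a b c, T a b c = ∑ e, u e a * v e b * w (f e) c) :
    FT ς 1 T (Fintype.card E) := by
  refine ⟨fun i => Fintype.card {e // f e = i}, (sum_fiber f).le, ?_⟩
  refine ⟨fun i a b c => ∑ e : {e // f e = i}, u e.1 a * v e.1 b * w i c, fun i => ?_,
    fun a b c => ?_⟩
  · simpa using D_q (fun e : {e // f e = i} => u e.1) (fun e => v e.1) (w i)
  · rw [h, sum_fiber' f]
    exact Finset.sum_congr rfl fun i _ => Finset.sum_congr rfl fun e _ => by rw [e.2]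

theorem FT_s {E ς : Type} [Fintype E] [Fintype ς] [DecidableEq ς] {T : α → β → γ → K}
    (f : E → ς) (u : ς → α → K) (v : E → β → K) (w : E → γ → K)
    (h : ∀ a b c, T a b c = ∑ e, u (f e) a * v e b * w e c) :
    FT ς 2 T (Fintype.card E) := by
  refine ⟨fun i => Fintype.card {e // f e = i}, (sum_fiber f).le, ?_⟩
  refine ⟨fun i a b c => ∑ e : {e // f e = i}, u i a * v e.1 b * w e.1 c, fun i => ?_,
    fun a b c => ?_⟩
  · simpa using D_s (u i) (fun e : {e // f e = i} => v e.1) (fun e => w e.1)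
  · rw [h, sum_fiber' f]
    exact Finset.sum_congr rfl fun i _ => Finset.sum_congr rfl fun e _ => by rw [e.2]

end Pool.Agent.TH671.SG
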